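import Pool.Agent.H70.PW.Targets

/-!
# MP_0f8dca_lc, module GLM: the oracle of the binary search is in the level `k + 1`
-/

set_option autoImplicit false

namespace Pool.Agent.H62.PW.GLM

open Finset Pool.Agent.H6.NB Pool.Agent.H70.OQ Pool.Agent.H70.PW

/-- evaluation of the formula: one query at the end -/
def chk : Bool → ℕ → List Bool → List (List Bool) → DT
  | b, _, w, [] => DT.node w (DT.leaf (!b)) (DT.leaf b)
  | b, l, w, v :: vs => if v.length = l then chk (!b) (2 * l) (w ++ v) vs else DT.leaf (!b)

theorem alt_const {R : List Bool → Prop} (h : R []) (q : Prop) (k : ℕ) :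
    (Alt R true k (fun _ => q) ↔ q) ∧ (Alt R false k (fun _ => q) ↔ q) := by
  induction k with
  | zero => exact ⟨Iff.rfl, Iff.rfl⟩
  | succ k ih =>
    constructor
    · constructor
      · rintro ⟨w, -, hw⟩
        exact ih.2.1 hw
      · intro hq
        exact ⟨[], h, ih.2.2 hq⟩
    · constructor
      · intro hw
        exact ih.1.1 (hw [] h)
      · intro hq w _
        exact ih.1.2 hq

theorem alt_chk {R : List Bool → Prop} (O : List Bool → Bool) (k : ℕ) :
    ∀ (l : ℕ) (w : List Bool), (∀ v : List Bool, v.length ≤ 2 ^ k * l → R v) →
    (Alt R true k (fun vs => (chk true l w vs).eval O = true) ↔ Nd O k l w) ∧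
    (Alt R false k (fun vs => (chk false l w vs).eval O = true) ↔ ¬ Nd O k l w) := by
  induction k with
  | zero =>
    intro l w _
    constructor
    · change ((chk true l w []).eval O = true) ↔ O w = true
      by_cases h : O w = true <;> simp [chk, DT.eval, h]
    · change ((chk false l w []).eval O = true) ↔ ¬ O w = true
      by_cases h : O w = true <;> simp [chk, DT.eval, h]
  | succ k ih =>
    intro l w hR
    have hl : ∀ v : List Bool, v.length = l → R v := by
      intro v hv
      apply hR
      rw [hv]
      exact Nat.le_mul_of_pos_left l (Nat.two_pow_pos _)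
    have hR' : ∀ v : List Bool, v.length ≤ 2 ^ k * (2 * l) → R v := by
      intro v hv
      apply hR
      rw [pow_succ, mul_assoc]
      exact hv
    have h0 : R [] := hR [] (Nat.zero_le _)
    constructor
    · change (∃ v, R v ∧ Alt R false k (fun vs => (chk true l w (v :: vs)).eval O = true)) ↔
        ∃ v : List Bool, v.length = l ∧ ¬ Nd O k (2 * l) (w ++ v)
      refine exists_congr fun v => ?_
      by_cases hv : v.length = l
      · have h1 : (fun vs => (chk true l w (v :: vs)).eval O = true) =
            fun vs => (chk false (2 * l) (w ++ v) vs).eval O = true := by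
          funext vs
          simp only [chk, if_pos hv, Bool.not_true]
        rw [h1, (ih (2 * l) (w ++ v) hR').2]
        exact ⟨fun h => ⟨hv, h.2⟩, fun h => ⟨hl v hv, h.2⟩⟩
      · have h1 : (fun vs => (chk true l w (v :: vs)).eval O = true) =
            fun _ => false = true := by
          funext vs
          simp only [chk, if_neg hv, Bool.not_true, DT.eval]
        rw [h1, (alt_const h0 _ k).2]
        exact ⟨fun h => absurd h.2 Bool.false_ne_true, fun h => absurd h.1 hv⟩
    · change (∀ v, R v → Alt R true k (fun vs => (chk false l w (v :: vs)).eval O = true)) ↔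
        ¬ ∃ v : List Bool, v.length = l ∧ ¬ Nd O k (2 * l) (w ++ v)
      rw [not_exists]
      refine forall_congr' fun v => ?_
      by_cases hv : v.length = l
      · have h1 : (fun vs => (chk false l w (v :: vs)).eval O = true) =
            fun vs => (chk true (2 * l) (w ++ v) vs).eval O = true := by
          funext vs
          simp only [chk, if_pos hv, Bool.not_false]
        rw [h1, (ih (2 * l) (w ++ v) hR').1]
        constructor
        · rintro h ⟨-, h2⟩
          exact h2 (h (hl v hv))
        · intro h _
          by_contra h2
          exact h ⟨hv, h2⟩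
      · have h1 : (fun vs => (chk false l w (v :: vs)).eval O = true) =
            fun _ => true = true := by
          funext vs
          simp only [chk, if_neg hv, Bool.not_false, DT.eval]
        rw [h1, (alt_const h0 _ k).1]
        exact ⟨fun _ h => hv h.1, fun _ _ => rfl⟩

theorem chk_depth (b : Bool) (l : ℕ) (w : List Bool) (vs : List (List Bool)) :
    (chk b l w vs).depth ≤ 1 := by
  induction vs generalizing b l w with
  | nil => simp [chk, DT.depth]
  | cons v vs ih =>
    unfold chk
    split_ifs
    · exact ih _ _ _
    · simp [DT.depth]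

theorem chk_short (m : ℕ) (vs : List (List Bool)) : ∀ (b : Bool) (l : ℕ) (w : List Bool),
    w.length + 2 ^ vs.length * l ≤ m + l → (chk b l w vs).Short m := by
  induction vs with
  | nil =>
    intro b l w h
    simp only [List.length_nil, pow_zero, one_mul] at h
    exact ⟨by omega, trivial, trivial⟩
  | cons v vs ih =>
    intro b l w h
    unfold chk
    split_ifs with hv
    · apply ih
      rw [List.length_append, hv]
      rw [List.length_cons, pow_succ, mul_assoc] at h
      omega
    · trivial

theorem arith (k n : ℕ) : 2 ^ (k + 1) * n + 1 ≤ n ^ 2 ^ (k + 2) + 2 ^ (k + 2) := by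
  have h0 : 1 ≤ 2 ^ (k + 1) := Nat.one_le_two_pow
  have h1 : 2 ^ (k + 2) = 2 * 2 ^ (k + 1) := by rw [pow_succ]; ring
  rcases Nat.lt_or_ge n 2 with hn | hn
  · interval_cases n
    · rw [mul_zero, zero_add]
      exact (Nat.one_le_two_pow).trans (Nat.le_add_left _ _)
    · rw [one_pow]; omega
  · have h2 : k + 2 ≤ 2 ^ (k + 2) := Nat.lt_two_pow_self.le
    have h3 : n ^ (k + 2) ≤ n ^ 2 ^ (k + 2) := Nat.pow_le_pow_right (by omega) h2
    have h4 : 2 ^ (k + 1) * n ≤ n ^ (k + 2) := by
      calc 2 ^ (k + 1) * n ≤ n ^ (k + 1) * n :=
            Nat.mul_le_mul_right n (Nat.pow_le_pow_left hn _)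
        _ = n ^ (k + 2) := (pow_succ n (k + 1)).symm
    omega

open Classical in
/-- the decision tree of the machine -/
noncomputable def tr (y : List Bool) : List (List Bool) → DT
  | [] => DT.leaf false
  | u :: vs => if u.length = y.length ∧ ¬ Later u y then
      chk false (2 * u.length) (false :: u) vs else DT.leaf false

/-- the machine -/
noncomputable def mach (k : ℕ) : Machine (k + 1) where
  c := 2 ^ (k + 2)
  tree := tr
  depth_le := by
    intro x ws _ _
    have h1 : 1 ≤ x.length ^ 2 ^ (k + 2) + 2 ^ (k + 2) := (Nat.le_add_left 1 _).trans (arith k _)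
    cases ws with
    | nil => simp [tr, DT.depth]
    | cons u vs =>
      simp only [tr]
      split_ifs
      · exact (chk_depth _ _ _ _).trans h1
      · simp [DT.depth]
  short := by
    intro x ws hws _
    cases ws with
    | nil => trivial
    | cons u vs =>
      rw [List.length_cons, Nat.add_right_cancel_iff] at hws
      simp only [tr]
      split_ifs with h
      · apply chk_short
        have h2 := arith k x.length
        rw [List.length_cons, hws, h.1]
        have h3 : 2 ^ k * (2 * x.length) = 2 ^ (k + 1) * x.length := by rw [pow_succ]; ring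
        rw [h3]
        omega
      · trivial

/-- GLM: the oracle of the binary search is in the level `k + 1`. -/
theorem glm : T_GLM := by
  intro k
  refine ⟨mach k, fun O => ?_⟩
  ext y
  have hR0 : (fun w : List Bool => w.length ≤ y.length ^ (mach k).c + (mach k).c) [] :=
    Nat.zero_le _
  change (∃ u : List Bool, u.length ≤ y.length ^ (mach k).c + (mach k).c ∧
    Alt (fun w => w.length ≤ y.length ^ (mach k).c + (mach k).c) false k
      (fun vs => (tr y (u :: vs)).eval O = true)) ↔
    ∃ u : List Bool, u.length = y.length ∧ Special k O u ∧ ¬ Later u y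
  refine exists_congr fun u => ?_
  by_cases h : u.length = y.length ∧ ¬ Later u y
  · have h1 : (fun vs => (tr y (u :: vs)).eval O = true) =
        fun vs => (chk false (2 * u.length) (false :: u) vs).eval O = true := by
      funext vs
      simp only [tr, if_pos h]
    have hc := arith k y.length
    have h5 : 2 ^ k * (2 * u.length) = 2 ^ (k + 1) * y.length := by rw [pow_succ, h.1]; ring
    rw [h1, (alt_chk O k (2 * u.length) (false :: u) (fun v hv => ?_)).2]
    · constructor
      · rintro ⟨-, h2⟩
        exact ⟨h.1, h2, h.2⟩
      · rintro ⟨-, h2, -⟩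
        refine ⟨?_, h2⟩
        rw [h.1]
        change y.length ≤ y.length ^ 2 ^ (k + 2) + 2 ^ (k + 2)
        have h6 : y.length ≤ 2 ^ (k + 1) * y.length :=
          Nat.le_mul_of_pos_left _ (Nat.two_pow_pos _)
        omega
    · change v.length ≤ y.length ^ 2 ^ (k + 2) + 2 ^ (k + 2)
      rw [h5] at hv
      omega
  · have h1 : (fun vs => (tr y (u :: vs)).eval O = true) = fun _ => false = true := by
      funext vs
      simp only [tr, if_neg h, DT.eval]
    rw [h1, (alt_const hR0 _ k).2]
    constructor
    · rintro ⟨-, h2⟩
      exact absurd h2 Bool.false_ne_true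
    · rintro ⟨h2, -, h3⟩
      exact absurd ⟨h2, h3⟩ h

end Pool.Agent.H62.PW.GLM
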