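import Pool.Agent.H70.PW.Targets

/-!
# MP_0f8dca_lc, module HTC: the table lemma for the tables of the stage `n`
-/

set_option autoImplicit false

namespace Pool.Agent.H62.PW.HTC

open Finset Pool.Agent.H6.NB Pool.Agent.H70.OQ Pool.Agent.H70.PW

/-- HTC: the table lemma for the tables of the stage `n`. -/
theorem htc (h1 : T_TBE) : T_HTC := by
  intro n k S t w hw htw f hf
  have hw0 : (0 : ℝ) < w := by exact_mod_cast hw
  have : Nonempty (Hid (Fin n → Bool) (Ys n) (k + 1)) := hid_nonempty (k + 1)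
  have hc : (0 : ℝ) < Fintype.card (Hid (Fin n → Bool) (Ys n) (k + 1)) := by
    exact_mod_cast Fintype.card_pos
  have h := h1 (Fin n → Bool) (Ys n) k S t w (2 ^ n) (1 / (64 * w)) hw htw
      (by positivity) (by rw [mul_one_div, div_self (by positivity)]) Nat.one_le_two_pow
      (fun i _ => by
        have e1 : Fintype.card (Node (Fin n → Bool) (Ys n) i) = 2 ^ ((2 ^ (i + 1) - 1) * n) :=
          card_Nn n i
        rw [e1, Fintype.card_fun, Fintype.card_bool, Fintype.card_fin, ← pow_add]
        refine Nat.pow_le_pow_right (by norm_num) (le_of_eq ?_)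
        have : 1 ≤ 2 ^ (i + 1) := Nat.one_le_two_pow
        obtain ⟨m, hm⟩ : ∃ m, 2 ^ (i + 1) = m + 1 := ⟨2 ^ (i + 1) - 1, by omega⟩
        rw [hm]
        simp only [Nat.add_sub_cancel]
        ring) f hf
  rw [Fintype.sum_prod_type]
  rw [← div_le_iff₀ hc] at h
  refine le_trans (le_of_eq ?_) h
  rw [Finset.sum_div]
  refine Finset.sum_congr rfl fun H _ => ?_
  rw [Finset.sum_div]
  refine Finset.sum_congr rfl fun l _ => ?_
  exact div_mul_eq_mul_div _ _ _

end Pool.Agent.H62.PW.HTC
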