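import Pool.Agent.H70.PW.Targets

/-!
# MP_0f8dca_lc, module LTR: the lexicographic order
-/

set_option autoImplicit false

namespace Pool.Agent.H62.PW.LTR

open Finset Pool.Agent.H6.NB Pool.Agent.H70.OQ Pool.Agent.H70.PW

theorem nil_left (v : List Bool) : ¬ Later [] v := by
  rintro ⟨a, b, c, h, -⟩
  cases a <;> simp at h

theorem nil_right (u : List Bool) : ¬ Later u [] := by
  rintro ⟨a, b, c, -, h⟩
  cases a <;> simp at h

theorem cons_iff (x y : Bool) (u v : List Bool) :
    Later (x :: u) (y :: v) ↔ (x = false ∧ y = true) ∨ (x = y ∧ Later u v) := by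
  constructor
  · rintro ⟨a, b, c, h, h'⟩
    cases a with
    | nil =>
      rw [List.nil_append, List.cons.injEq] at h h'
      exact Or.inl ⟨h.1, h'.1⟩
    | cons z a =>
      rw [List.cons_append, List.cons.injEq] at h h'
      exact Or.inr ⟨h.1.trans h'.1.symm, a, b, c, h.2, h'.2⟩
  · rintro (⟨rfl, rfl⟩ | ⟨rfl, a, b, c, h, h'⟩)
    · exact ⟨[], u, v, rfl, rfl⟩
    · exact ⟨x :: a, b, c, by rw [h]; rfl, by rw [h']; rfl⟩

theorem irrefl (u : List Bool) : ¬ Later u u := by
  induction u with
  | nil => exact nil_left _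
  | cons x u ih =>
    rw [cons_iff]
    rintro (⟨h, h'⟩ | ⟨-, h⟩)
    · rw [h] at h'; exact Bool.noConfusion h'
    · exact ih h

theorem trans (u v w : List Bool) (h : Later u v) (h' : Later v w) : Later u w := by
  induction u generalizing v w with
  | nil => exact absurd h (nil_left _)
  | cons x u ih =>
    cases v with
    | nil => exact absurd h (nil_right _)
    | cons y v =>
      cases w with
      | nil => exact absurd h' (nil_right _)
      | cons z w =>
        rw [cons_iff] at h h' ⊢
        rcases h with ⟨h1, h2⟩ | ⟨h1, h2⟩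
        · rcases h' with ⟨h3, h4⟩ | ⟨h3, h4⟩
          · exact Or.inl ⟨h1, h4⟩
          · exact Or.inl ⟨h1, h3 ▸ h2⟩
        · rcases h' with ⟨h3, h4⟩ | ⟨h3, h4⟩
          · exact Or.inl ⟨h1.trans h3, h4⟩
          · exact Or.inr ⟨h1.trans h3, ih v w h2 h4⟩

theorem total (u v : List Bool) (h : u.length = v.length) : u = v ∨ Later u v ∨ Later v u := by
  induction u generalizing v with
  | nil =>
    cases v with
    | nil => exact Or.inl rfl
    | cons y v => simp at h
  | cons x u ih =>
    cases v with
    | nil => simp at h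
    | cons y v =>
      rw [cons_iff, cons_iff]
      rw [List.length_cons, List.length_cons, Nat.add_right_cancel_iff] at h
      rcases ih v h with h1 | h1 | h1
      · subst h1
        cases x <;> cases y <;> simp
      · cases x <;> cases y <;> simp [h1]
      · cases x <;> cases y <;> simp [h1]

theorem tails (u v x y : List Bool) (h : Later u v) : Later (u ++ x) (v ++ y) := by
  obtain ⟨a, b, c, rfl, rfl⟩ := h
  exact ⟨a, b ++ x, c ++ y, by simp, by simp⟩

theorem pref (u v x : List Bool) : Later u v ↔ Later (x ++ u) (x ++ v) := by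
  induction x with
  | nil => rfl
  | cons z x ih =>
    rw [List.cons_append, List.cons_append, cons_iff, ih]
    constructor
    · intro h; exact Or.inr ⟨rfl, h⟩
    · rintro (⟨h, h'⟩ | ⟨-, h⟩)
      · rw [h] at h'; exact Bool.noConfusion h'
      · exact h

theorem ltr : T_LTR := ⟨irrefl, trans, total, tails, pref⟩

end Pool.Agent.H62.PW.LTR
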